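import Pool.Agent.N838.CR.Stm

set_option autoImplicit false

namespace Pool.Agent.N223.CR

open N838.CR

theorem t_HALL : HALL := by
  classical
  intro n R h
  have key : ∀ I : Finset (Fin n), I.card ≤ (I.biUnion fun i => Finset.univ.filter (R i)).card := by
    intro I
    set N := I.biUnion fun i => Finset.univ.filter (R i) with hN
    have h1 := h I Nᶜ (by
      intro i hi j hj hR
      rw [Finset.mem_compl] at hj
      exact hj (Finset.mem_biUnion.2 ⟨i, hi, Finset.mem_filter.2 ⟨Finset.mem_univ _, hR⟩⟩))
    rw [Finset.card_compl, Fintype.card_fin] at h1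
    have h2 : N.card ≤ n := by
      have := Finset.card_le_univ N
      rwa [Fintype.card_fin] at this
    omega
  obtain ⟨f, hf1, hf2⟩ := (Finset.all_card_le_biUnion_card_iff_exists_injective
    (fun i => Finset.univ.filter (R i))).1 key
  refine ⟨Equiv.ofBijective f (Finite.injective_iff_bijective.1 hf1), fun i => ?_⟩
  exact (Finset.mem_filter.1 (hf2 i)).2

end Pool.Agent.N223.CR
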